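import Pool.Agent.H27.LV.Targets3

/-!
# MP_70ba79_ag: target HYC2
-/

set_option autoImplicit false

namespace Pool.Agent.H88.LW

open MvPolynomial SC Pool.Agent.H27.LV

theorem tHYC2 : T_HYC2 := by
  classical
  intro k _ n d e ι _ a φ c I hφ hc hI
  have hev : ∀ i ∈ I, eval (a i) (frm c) = 0 := by
    intro i hi
    have h1 := hI i hi
    rw [eval_frm]
    unfold val at h1
    rw [← h1]
    refine Finset.sum_congr rfl fun f _ => ?_
    rw [mul_comm]
    rfl
  have hfrm : frm c ≠ 0 := fun h => hc (frm_zero h)
  let T : ((Mon (n + 1) d → k) × (I → k)) →ₗ[k] (Mon (n + 1) (d + e) → k) :=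
    { toFun := fun x p => (frm c * frm x.1 + ∑ i : I, C (x.2 i) * φ i.1).coeff (fs p.1)
      map_add' := by
        intro s t
        funext p
        have h1 : frm (s + t).1 = frm s.1 + frm t.1 := by
          unfold frm
          rw [← Finset.sum_add_distrib]
          exact Finset.sum_congr rfl fun β _ => by
            rw [Prod.fst_add, Pi.add_apply, C_add, add_mul]
        simp only [h1, Pi.add_apply, Prod.snd_add, C_add, add_mul, Finset.sum_add_distrib, mul_add,
          coeff_add]
        ring
      map_smul' := by
        intro r t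
        funext p
        have h1 : frm (r • t).1 = C r * frm t.1 := by
          unfold frm
          rw [Finset.mul_sum]
          exact Finset.sum_congr rfl fun β _ => by
            rw [Prod.smul_fst, Pi.smul_apply, smul_eq_mul, C_mul, mul_assoc]
        have h2 : (frm c * (C r * frm t.1) + ∑ i : I, C ((r • t).2 i) * φ i.1) =
            C r * (frm c * frm t.1 + ∑ i : I, C (t.2 i) * φ i.1) := by
          rw [mul_add, Finset.mul_sum]
          congr 1
          · ring
          · refine Finset.sum_congr rfl fun i _ => ?_
            rw [Prod.smul_snd, Pi.smul_apply, smul_eq_mul, C_mul, mul_assoc]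
        simp only [h1, h2, coeff_C_mul, Pi.smul_apply, smul_eq_mul, RingHom.id_apply] }
  have hinj : Function.Injective T := by
    rw [← LinearMap.ker_eq_bot, LinearMap.ker_eq_bot']
    intro x hx
    have hhom : (frm c * frm x.1 + ∑ i : I, C (x.2 i) * φ i.1).IsHomogeneous (d + e) := by
      refine IsHomogeneous.add ?_ ?_
      · have h1 := (frm_homog c).mul (frm_homog x.1)
        rw [add_comm d e]
        exact h1
      · refine IsHomogeneous.sum _ _ _ fun i _ => ?_
        have h1 := (isHomogeneous_C (Fin (n + 1)) (x.2 i)).mul (hφ.homog i.1)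
        rwa [zero_add] at h1
    have h0 : frm c * frm x.1 + ∑ i : I, C (x.2 i) * φ i.1 = 0 := by
      rw [dec hhom]
      refine Finset.sum_eq_zero fun p _ => ?_
      have := congrFun hx p
      change (frm c * frm x.1 + ∑ i : I, C (x.2 i) * φ i.1).coeff (fs p.1) = 0 at this
      rw [this, C_0, zero_mul]
    have hw : ∀ i : I, x.2 i = 0 := by
      intro i
      have h1 := congrArg (eval (a i.1)) h0
      rw [map_add, map_mul, hev i.1 i.2, zero_mul, zero_add, map_sum, map_zero,
        Finset.sum_eq_single i] at h1
      · rw [map_mul, eval_C, hφ.eval_same, mul_one] at h1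
        exact h1
      · intro j _ hj
        rw [map_mul, hφ.eval_ne j.1 i.1 (fun h => hj (Subtype.ext h)), mul_zero]
      · simp
    have h2 : frm c * frm x.1 = 0 := by
      have : ∑ i : I, C (x.2 i) * φ i.1 = 0 :=
        Finset.sum_eq_zero fun i _ => by rw [hw i, C_0, zero_mul]
      rw [this, add_zero] at h0
      exact h0
    have h3 : x.1 = 0 := frm_zero ((mul_eq_zero.mp h2).resolve_left hfrm)
    exact Prod.ext h3 (funext hw)
  have h := LinearMap.finrank_le_finrank_of_injective hinj
  rw [Module.finrank_prod, Module.finrank_fintype_fun_eq_card, Module.finrank_fintype_fun_eq_card,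
    Module.finrank_fintype_fun_eq_card, Fintype.card_coe] at h
  omega

end Pool.Agent.H88.LW
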