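import Pool.Agent.H27.LV.Targets3

/-!
# MP_70ba79_ag: target INJ2
-/

set_option autoImplicit false

namespace Pool.Agent.H88.LW

open MvPolynomial SC Pool.Agent.H27.LV

lemma comp_mul {σ K : Type} [Field K] {e : ℕ} (d : ℕ) (f : MvPolynomial σ K)
    (hf : f.IsHomogeneous e) (h : MvPolynomial σ K) :
    homogeneousComponent (d + e) (f * h) = f * homogeneousComponent d h := by
  conv_lhs => rw [← sum_homogeneousComponent h, Finset.mul_sum, map_sum]
  have h1 : ∀ i, homogeneousComponent (d + e) (f * homogeneousComponent i h) =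
      if i = d then f * homogeneousComponent d h else 0 := by
    intro i
    have h2 : f * homogeneousComponent i h ∈ homogeneousSubmodule σ K (e + i) := by
      rw [mem_homogeneousSubmodule]
      exact hf.mul (homogeneousComponent_isHomogeneous i h)
    rw [homogeneousComponent_of_mem h2]
    by_cases hi : i = d
    · subst hi
      rw [if_pos (by omega), if_pos rfl]
    · rw [if_neg (by omega), if_neg hi]
  simp only [h1]
  rw [Finset.sum_ite_eq']
  split_ifs with h3
  · rfl
  · rw [Finset.mem_range, not_lt] at h3
    rw [homogeneousComponent_eq_zero _ _ (by omega), mul_zero]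

theorem tINJ2 : T_INJ2 := by
  intro k K _ _ _ n d e ι _ a φ D c hG g hg hv
  have h1 : frm c ∣ g * frm (fun β => D (c β)) := by
    unfold vv at hv
    rw [sub_eq_zero] at hv
    exact ⟨_, hv⟩
  obtain ⟨h, hh⟩ := hG.2 g h1
  refine ⟨homogeneousComponent d h, homogeneousComponent_isHomogeneous d h, ?_⟩
  rw [← comp_mul d (frm c) (frm_homog c) h, ← hh]
  rw [homogeneousComponent_of_mem ((mem_homogeneousSubmodule _ _).mpr hg), if_pos rfl]

end Pool.Agent.H88.LW
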